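import Pool.Agent.H73.OV.Pot

/-!
# Geometry of the polytope `GQ p b`
-/

set_option autoImplicit false

namespace Pool.Agent.H73.OV

open Finset
open Pool.Agent.W600.Opp (Sub GQ Paired lf lft tr mem_tr mem_GQ lf_sub lf_empty lf_univ
  extreme_of_tight sum_none_mem sum_none_notMem)

variable {S : Type*} [Fintype S] [DecidableEq S]

theorem gq_convex (p b : Finset S → ℤ) : Convex ℝ (GQ p b) := by
  intro x hx y hy α β hα hβ hαβ A
  have e : ∑ i ∈ A, (α • x + β • y) i = α * ∑ i ∈ A, x i + β * ∑ i ∈ A, y i := by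
    rw [Finset.mul_sum, Finset.mul_sum, ← Finset.sum_add_distrib]
    exact Finset.sum_congr rfl (fun i _ => by simp)
  rw [e]
  have h1 := hx A
  have h2 := hy A
  constructor
  · calc (p A : ℝ) = α * p A + β * p A := by rw [← add_mul, hαβ, one_mul]
      _ ≤ _ := add_le_add (mul_le_mul_of_nonneg_left h1.1 hα) (mul_le_mul_of_nonneg_left h2.1 hβ)
  · calc α * ∑ i ∈ A, x i + β * ∑ i ∈ A, y i ≤ α * b A + β * b A :=
          add_le_add (mul_le_mul_of_nonneg_left h1.2 hα) (mul_le_mul_of_nonneg_left h2.2 hβ)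
      _ = b A := by rw [← add_mul, hαβ, one_mul]

theorem gq_compact (p b : Finset S → ℤ) : IsCompact (GQ p b) := by
  have hcl : IsClosed (GQ p b) := by
    have e : GQ p b = ⋂ A : Finset S, {x : S → ℝ | (p A : ℝ) ≤ ∑ i ∈ A, x i ∧
        ∑ i ∈ A, x i ≤ (b A : ℝ)} := by
      ext x
      simp [GQ]
    rw [e]
    apply isClosed_iInter
    intro A
    have hc : Continuous (fun x : S → ℝ => ∑ i ∈ A, x i) :=
      continuous_finsetSum A (fun i _ => continuous_apply i)
    exact (isClosed_le continuous_const hc).inter (isClosed_le hc continuous_const)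
  apply IsCompact.of_isClosed_subset
    (isCompact_Icc (a := fun i : S => (p {i} : ℝ)) (b := fun i : S => (b {i} : ℝ))) hcl
  intro x hx
  constructor
  · intro i
    have := (hx {i}).1
    rwa [Finset.sum_singleton] at this
  · intro i
    have := (hx {i}).2
    rwa [Finset.sum_singleton] at this

theorem sq_le {Q : Set (S → ℝ)} (hc : IsCompact Q) (hv : Convex ℝ Q) (c : ℝ)
    (h : ∀ v ∈ Q.extremePoints ℝ, ∑ i, v i ^ 2 ≤ c) : ∀ y ∈ Q, ∑ i, y i ^ 2 ≤ c := by
  intro y hy
  rw [← closure_convexHull_extremePoints hc hv] at hy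
  have hcl : IsClosed {y : S → ℝ | ∑ i, y i ^ 2 ≤ c} :=
    isClosed_le (continuous_finsetSum _ (fun i _ => (continuous_apply i).pow 2))
      continuous_const
  have hcv : Convex ℝ {y : S → ℝ | ∑ i, y i ^ 2 ≤ c} := by
    intro x hx y hy α β hα hβ hαβ
    simp only [Set.mem_ofPred_eq] at hx hy ⊢
    have e : ∀ i, (α • x + β • y) i ^ 2 ≤ α * x i ^ 2 + β * y i ^ 2 := by
      intro i
      have e1 : (α • x + β • y) i = α * x i + β * y i := by simp
      rw [e1]
      have e2 : β = 1 - α := by linarith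
      have e3 : α * x i ^ 2 + β * y i ^ 2 - (α * x i + β * y i) ^ 2 =
          α * β * (x i - y i) ^ 2 := by
        rw [e2]; ring
      have e4 : 0 ≤ α * β * (x i - y i) ^ 2 := by positivity
      linarith
    calc ∑ i, (α • x + β • y) i ^ 2 ≤ ∑ i, (α * x i ^ 2 + β * y i ^ 2) :=
          Finset.sum_le_sum (fun i _ => e i)
      _ = α * ∑ i, x i ^ 2 + β * ∑ i, y i ^ 2 := by
          rw [Finset.sum_add_distrib, Finset.mul_sum, Finset.mul_sum]
      _ ≤ α * c + β * c :=
          add_le_add (mul_le_mul_of_nonneg_left hx hα) (mul_le_mul_of_nonneg_left hy hβ)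
      _ = c := by rw [← add_mul, hαβ, one_mul]
  exact closure_minimal (convexHull_min h hcv) hcl hy

theorem extreme_of_sq {Q : Set (S → ℝ)} (c : ℝ) (h : ∀ y ∈ Q, ∑ i, y i ^ 2 ≤ c)
    (x : S → ℝ) (hx : x ∈ Q) (hxc : c ≤ ∑ i, x i ^ 2) : x ∈ Q.extremePoints ℝ := by
  rw [mem_extremePoints_iff_left]
  refine ⟨hx, ?_⟩
  intro x1 hx1 x2 hx2 hseg
  obtain ⟨α, β, hα, hβ, hαβ, hxe⟩ := hseg
  have e2 : β = 1 - α := by linarith
  have e : ∀ i, x i ^ 2 = α * x1 i ^ 2 + β * x2 i ^ 2 - α * β * (x1 i - x2 i) ^ 2 := by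
    intro i
    have e1 : x i = α * x1 i + β * x2 i := by rw [← hxe]; simp
    rw [e1, e2]; ring
  have e3 : ∑ i, x i ^ 2 = α * ∑ i, x1 i ^ 2 + β * ∑ i, x2 i ^ 2 -
      α * β * ∑ i, (x1 i - x2 i) ^ 2 := by
    rw [Finset.sum_congr rfl (fun i _ => e i), Finset.sum_sub_distrib, Finset.sum_add_distrib,
      Finset.mul_sum, Finset.mul_sum, Finset.mul_sum]
  have h1 := h x1 hx1
  have h2 := h x2 hx2
  have h3 : α * ∑ i, x1 i ^ 2 + β * ∑ i, x2 i ^ 2 ≤ c := by
    calc α * ∑ i, x1 i ^ 2 + β * ∑ i, x2 i ^ 2 ≤ α * c + β * c :=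
          add_le_add (mul_le_mul_of_nonneg_left h1 hα.le) (mul_le_mul_of_nonneg_left h2 hβ.le)
      _ = c := by rw [← add_mul, hαβ, one_mul]
  have h4 : α * β * ∑ i, (x1 i - x2 i) ^ 2 ≤ 0 := by linarith
  have h5 : 0 ≤ ∑ i, (x1 i - x2 i) ^ 2 := Finset.sum_nonneg (fun i _ => sq_nonneg _)
  have h6 : ∑ i, (x1 i - x2 i) ^ 2 = 0 := by
    apply le_antisymm _ h5
    by_contra hlt
    push Not at hlt
    have : 0 < α * β * ∑ i, (x1 i - x2 i) ^ 2 := by positivity
    linarith
  rw [Finset.sum_eq_zero_iff_of_nonneg (fun i _ => sq_nonneg _)] at h6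
  funext i
  have h7 := h6 i (Finset.mem_univ i)
  have h8 : x1 i = x2 i := by
    have := pow_eq_zero_iff (two_ne_zero) |>.mp h7
    linarith
  have e1 : x i = α * x1 i + β * x2 i := by rw [← hxe]; simp
  rw [e1, ← h8, ← add_mul, hαβ, one_mul]

/-- the sum of squares of a `{0, 1, -1}` vector -/
theorem sum_sq (x : S → ℝ) (hx : ∀ i, x i = 0 ∨ x i = 1 ∨ x i = -1) :
    ∑ i, x i ^ 2 = (Fintype.card S : ℝ) - ((univ.filter (fun i => x i = 0)).card : ℝ) := by
  have e : ∀ i, x i ^ 2 = 1 - (if x i = 0 then (1 : ℝ) else 0) := by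
    intro i
    rcases hx i with h | h | h
    · rw [h]; simp
    · rw [h]; norm_num
    · rw [h]; norm_num
  rw [Finset.sum_congr rfl (fun i _ => e i), Finset.sum_sub_distrib, Finset.sum_boole]
  simp

/-- the vertex given by a list -/
theorem list_vertex {p b : Finset S → ℤ} (h : Paired p b) (l : List (Option S)) (hn : l.Nodup)
    (hl : l.toFinset = univ) :
    (fun i => (gv (lf p b) l ∅ (some i) : ℝ)) ∈ (GQ p b).extremePoints ℝ := by
  have hf : ∀ X Y, lf p b (X ∩ Y) + lf p b (X ∪ Y) ≤ lf p b X + lf p b Y := fun X Y =>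
    lf_sub h X Y (Finset.subset_univ X) (Finset.subset_univ Y)
  apply extreme_of_tight
  · have := gv_sum (lf p b) l ∅ hn (by simp)
    rw [hl, Finset.empty_union, lf_univ h, lf_empty h] at this
    simpa using this
  · intro X
    have := gv_le (lf p b) hf l ∅ hn (by simp) X (by rw [hl]; exact Finset.subset_univ X)
    rw [Finset.empty_union, lf_empty h, sub_zero] at this
    exact this
  · intro i
    obtain ⟨T, -, t1, t2, t3⟩ := gv_tight (lf p b) l ∅ hn (by simp) i
      (List.mem_toFinset.mp (by rw [hl]; exact Finset.mem_univ i))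
    rw [Finset.empty_union, lf_empty h, sub_zero] at t2 t3
    exact ⟨T, t2, t1, t3⟩

theorem count_option (v : Option S → ℤ) :
    ∑ i, (if i ≠ none ∧ v i = 0 then (1 : ℤ) else 0) =
      ((univ.filter (fun i : S => (v (some i) : ℝ) = 0)).card : ℤ) := by
  rw [Fintype.sum_option]
  simp

theorem marginal {p b : Finset S → ℤ} (h : Paired p b)
    (hv : ∀ v ∈ (GQ p b).extremePoints ℝ, ∀ i, v i = 0 ∨ v i = 1 ∨ v i = -1)
    (X : Finset (Option S)) (i : Option S) (hi : i ∉ X) (hin : i ≠ none) :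
    lf p b (insert i X) = lf p b X ∨ lf p b (insert i X) = lf p b X + 1 ∨
      lf p b (insert i X) = lf p b X - 1 := by
  obtain ⟨s, rfl⟩ := Option.ne_none_iff_exists'.mp hin
  obtain ⟨c1, c2⟩ := cons_cover X (some s) hi
  obtain ⟨d1, d2⟩ := cover X _ c1 c2
  have hx := hv _ (list_vertex h _ d1 d2) s
  rw [gv_at _ _ _ _ _ (by rwa [Finset.mem_toList]), Finset.toList_toFinset,
    Finset.empty_union] at hx
  rcases hx with h | h | h
  · left
    have : lf p b (insert (some s) X) - lf p b X = 0 := by exact_mod_cast h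
    linarith
  · right; left
    have : lf p b (insert (some s) X) - lf p b X = 1 := by exact_mod_cast h
    linarith
  · right; right
    have : lf p b (insert (some s) X) - lf p b X = -1 := by exact_mod_cast h
    linarith

theorem zc_eq {p b : Finset S → ℤ} (l : List (Option S)) (hn : l.Nodup)
    (hl : l.toFinset = univ) :
    zc (lf p b) none l ∅ =
      ((univ.filter (fun i : S => (gv (lf p b) l ∅ (some i) : ℝ) = 0)).card : ℤ) := by
  rw [← count_option, ← gv_count (lf p b) none l ∅ hn, hl]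

/-- points of `Q` and `-Q` from integer points of the lifted base polyhedron -/
theorem mem_of_lift {p b : Finset S → ℤ} (v : Option S → ℤ) (hv0 : ∑ i, v i = 0)
    (hv : ∀ X, ∑ i ∈ X, v i ≤ lf p b X ∧ - ∑ i ∈ X, v i ≤ lf p b X) :
    (fun i => (v (some i) : ℝ)) ∈ GQ p b ∧ -(fun i => (v (some i) : ℝ)) ∈ GQ p b := by
  have h' : v none = - ∑ i, v (some i) := by
    rw [Fintype.sum_option] at hv0
    linarith
  constructor
  · rw [mem_GQ]
    intro X
    have e : ∀ o, lft (fun i => (v (some i) : ℝ)) o = (v o : ℝ) := by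
      intro o
      cases o with
      | none => rw [h']; simp [lft]
      | some i => simp [lft]
    rw [Finset.sum_congr rfl (fun o _ => e o)]
    have := (hv X).1
    exact_mod_cast this
  · rw [mem_GQ]
    intro X
    have e : ∀ o, lft (-(fun i => (v (some i) : ℝ))) o = - (v o : ℝ) := by
      intro o
      cases o with
      | none => rw [h']; simp [lft]
      | some i => simp [lft]
    rw [Finset.sum_congr rfl (fun o _ => e o), Finset.sum_neg_distrib]
    have := (hv X).2
    exact_mod_cast this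

end Pool.Agent.H73.OV
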