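import Pool.Agent.H73.OV.Split

/-!
# Greedy vectors along a list
-/

set_option autoImplicit false

namespace Pool.Agent.H73.OV

open Finset
open Pool.Agent.W600.Opp (Sub)

variable {E : Type*} [DecidableEq E]

/-- The greedy vector of `f` along the list `l`, starting from the set `A`. -/
def gv (f : Finset E → ℤ) : List E → Finset E → E → ℤ
  | [], _ => fun _ => 0
  | a :: l, A => Function.update (gv f l (insert a A)) a (f (insert a A) - f A)

/-- The number of zero coordinates (other than at `r`) of the greedy vector. -/
def zc (f : Finset E → ℤ) (r : E) : List E → Finset E → ℤ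
  | [], _ => 0
  | a :: l, A => (if a ≠ r ∧ f (insert a A) = f A then 1 else 0) + zc f r l (insert a A)

theorem sum_upd (g : E → ℤ) (a : E) (t : ℤ) (X : Finset E) (hX : a ∉ X) :
    ∑ i ∈ X, (Function.update g a t) i = ∑ i ∈ X, g i := by
  apply Finset.sum_congr rfl
  intro i hi
  rw [Function.update_of_ne (show i ≠ a from fun e => hX (e ▸ hi))]

theorem gv_sum (f : Finset E → ℤ) : ∀ (l : List E) (A : Finset E), l.Nodup → (∀ x ∈ l, x ∉ A) →
    ∑ i ∈ l.toFinset, gv f l A i = f (A ∪ l.toFinset) - f A := by
  intro l
  induction l with
  | nil => intro A _ _; simp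
  | cons a l ih =>
    intro A hn hd
    rw [List.nodup_cons] at hn
    have haA : a ∉ A := hd a (by simp)
    have ha : a ∉ l.toFinset := by simpa using hn.1
    have h := ih (insert a A) hn.2 (by
      intro x hx hx'
      rcases Finset.mem_insert.mp hx' with e | e
      · exact hn.1 (e ▸ hx)
      · exact hd x (by simp [hx]) e)
    rw [List.toFinset_cons, Finset.sum_insert ha]
    simp only [gv]
    rw [Function.update_self, sum_upd _ _ _ _ ha, h]
    have e : insert a A ∪ l.toFinset = A ∪ insert a l.toFinset := by
      rw [Finset.insert_union, Finset.union_insert]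
    rw [e]; ring

theorem gv_le (f : Finset E → ℤ) (hf : ∀ X Y, f (X ∩ Y) + f (X ∪ Y) ≤ f X + f Y) :
    ∀ (l : List E) (A : Finset E), l.Nodup → (∀ x ∈ l, x ∉ A) →
    ∀ Y : Finset E, Y ⊆ l.toFinset → ∑ i ∈ Y, gv f l A i ≤ f (A ∪ Y) - f A := by
  intro l
  induction l with
  | nil =>
    intro A _ _ Y hY
    rw [List.toFinset_nil, Finset.subset_empty] at hY
    rw [hY]; simp
  | cons a l ih =>
    intro A hn hd Y hY
    rw [List.nodup_cons] at hn
    have haA : a ∉ A := hd a (by simp)
    have ha : a ∉ l.toFinset := by simpa using hn.1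
    have h := ih (insert a A) hn.2 (by
      intro x hx hx'
      rcases Finset.mem_insert.mp hx' with e | e
      · exact hn.1 (e ▸ hx)
      · exact hd x (by simp [hx]) e)
    rw [List.toFinset_cons] at hY
    simp only [gv]
    by_cases haY : a ∈ Y
    · have e0 : insert a (Y.erase a) = Y := Finset.insert_erase haY
      have hYe : Y.erase a ⊆ l.toFinset := by
        intro j hj
        rw [Finset.mem_erase] at hj
        exact (Finset.mem_insert.mp (hY hj.2)).resolve_left hj.1
      have h' := h _ hYe
      rw [← Finset.add_sum_erase Y _ haY, Function.update_self,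
        sum_upd _ _ _ _ (Finset.notMem_erase a Y)]
      have e : insert a A ∪ Y.erase a = A ∪ Y := by
        rw [Finset.insert_union, ← Finset.union_insert, e0]
      rw [e] at h'
      linarith
    · have hYl : Y ⊆ l.toFinset := by
        intro j hj
        exact (Finset.mem_insert.mp (hY hj)).resolve_left (fun e => haY (e ▸ hj))
      have h' := h _ hYl
      rw [sum_upd _ _ _ _ haY]
      have hs := hf (insert a A) (A ∪ Y)
      have e1 : insert a A ∩ (A ∪ Y) = A := by
        ext x
        simp only [Finset.mem_inter, Finset.mem_insert, Finset.mem_union]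
        constructor
        · rintro ⟨e | e, h | h⟩
          · exact h
          · exact absurd (e ▸ h) haY
          · exact e
          · exact e
        · intro h; exact ⟨Or.inr h, Or.inl h⟩
      have e2 : insert a A ∪ (A ∪ Y) = insert a A ∪ Y := by
        ext x
        simp only [Finset.mem_insert, Finset.mem_union]
        tauto
      rw [e1, e2] at hs
      linarith

theorem gv_tight (f : Finset E → ℤ) : ∀ (l : List E) (A : Finset E), l.Nodup →
    (∀ x ∈ l, x ∉ A) → ∀ k ∈ l, ∃ T, T ⊆ l.toFinset ∧ k ∉ T ∧
      ∑ i ∈ T, gv f l A i = f (A ∪ T) - f A ∧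
      ∑ i ∈ insert k T, gv f l A i = f (A ∪ insert k T) - f A := by
  intro l
  induction l with
  | nil => intro A _ _ k hk; simp at hk
  | cons a l ih =>
    intro A hn hd k hk
    rw [List.nodup_cons] at hn
    have haA : a ∉ A := hd a (by simp)
    have ha : a ∉ l.toFinset := by simpa using hn.1
    simp only [gv]
    rcases List.mem_cons.mp hk with e | hk'
    · refine ⟨∅, Finset.empty_subset _, Finset.notMem_empty _, by simp, ?_⟩
      rw [e, Finset.insert_empty, Finset.sum_singleton, Function.update_self,
        Finset.union_singleton]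
    · obtain ⟨T, hT, hkT, t1, t2⟩ := ih (insert a A) hn.2 (by
        intro x hx hx'
        rcases Finset.mem_insert.mp hx' with e | e
        · exact hn.1 (e ▸ hx)
        · exact hd x (by simp [hx]) e) k hk'
      have hka : k ≠ a := fun e => hn.1 (e ▸ hk')
      have haT : a ∉ T := fun e => ha (hT e)
      have haT' : a ∉ insert k T := by
        rw [Finset.mem_insert, not_or]; exact ⟨fun e => hka e.symm, haT⟩
      refine ⟨insert a T, ?_, ?_, ?_, ?_⟩
      · rw [List.toFinset_cons]; exact Finset.insert_subset_insert a hT
      · rw [Finset.mem_insert, not_or]; exact ⟨hka, hkT⟩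
      · rw [Finset.sum_insert haT, Function.update_self, sum_upd _ _ _ _ haT, t1,
          Finset.insert_union, Finset.union_insert]
        ring
      · rw [Finset.insert_comm, Finset.sum_insert haT', Function.update_self,
          sum_upd _ _ _ _ haT', t2, Finset.insert_union, Finset.union_insert a A]
        ring

theorem gv_count (f : Finset E → ℤ) (r : E) : ∀ (l : List E) (A : Finset E), l.Nodup →
    ∑ i ∈ l.toFinset, (if i ≠ r ∧ gv f l A i = 0 then (1 : ℤ) else 0) = zc f r l A := by
  intro l
  induction l with
  | nil => intro A _; simp [zc]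
  | cons a l ih =>
    intro A hn
    rw [List.nodup_cons] at hn
    have ha : a ∉ l.toFinset := by simpa using hn.1
    have h := ih (insert a A) hn.2
    rw [List.toFinset_cons, Finset.sum_insert ha]
    have e : ∀ i ∈ l.toFinset, (if i ≠ r ∧ gv f (a :: l) A i = 0 then (1 : ℤ) else 0) =
        (if i ≠ r ∧ gv f l (insert a A) i = 0 then (1 : ℤ) else 0) := by
      intro i hi
      have e' : gv f (a :: l) A i = gv f l (insert a A) i := by
        simp only [gv]
        rw [Function.update_of_ne (show i ≠ a from fun e => ha (e ▸ hi))]
      rw [e']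
    rw [Finset.sum_congr rfl e, h]
    have e2 : gv f (a :: l) A a = f (insert a A) - f A := by
      simp only [gv]
      rw [Function.update_self]
    rw [e2]
    simp only [zc]
    by_cases hc : a ≠ r ∧ f (insert a A) = f A
    · rw [if_pos ⟨hc.1, by linarith [hc.2]⟩, if_pos hc]
    · rw [if_neg (fun h => hc ⟨h.1, by linarith [h.2]⟩), if_neg hc]

theorem gv_at (f : Finset E → ℤ) (i : E) (l2 : List E) : ∀ (l1 : List E) (A : Finset E),
    i ∉ l1 → gv f (l1 ++ i :: l2) A i =
      f (insert i (A ∪ l1.toFinset)) - f (A ∪ l1.toFinset) := by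
  intro l1
  induction l1 with
  | nil => intro A _; simp [gv]
  | cons a l ih =>
    intro A hi
    rw [List.mem_cons, not_or] at hi
    simp only [List.cons_append, gv]
    rw [Function.update_of_ne hi.1, ih _ hi.2, List.toFinset_cons, Finset.insert_union,
      Finset.union_insert]

theorem zc_append (f : Finset E → ℤ) (r : E) (l2 : List E) : ∀ (l1 : List E) (A : Finset E),
    zc f r (l1 ++ l2) A = zc f r l1 A + zc f r l2 (A ∪ l1.toFinset) := by
  intro l1
  induction l1 with
  | nil => intro A; simp [zc]
  | cons a l ih =>
    intro A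
    simp only [List.cons_append, zc]
    rw [ih, List.toFinset_cons, Finset.insert_union, Finset.union_insert]
    ring

theorem zc_nonneg (f : Finset E → ℤ) (r : E) : ∀ (l : List E) (A : Finset E),
    0 ≤ zc f r l A := by
  intro l
  induction l with
  | nil => intro A; simp [zc]
  | cons a l ih =>
    intro A
    simp only [zc]
    have := ih (insert a A)
    split_ifs <;> linarith

theorem zc_parity (f : Finset E → ℤ) (r : E)
    (h1 : ∀ (X : Finset E) (i : E), i ∉ X → i ≠ r →
      f (insert i X) = f X ∨ f (insert i X) = f X + 1 ∨ f (insert i X) = f X - 1) :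
    ∀ (l : List E) (A : Finset E), l.Nodup → (∀ x ∈ l, x ∉ A) → r ∉ l →
    (2 : ℤ) ∣ f (A ∪ l.toFinset) - f A + zc f r l A - l.length := by
  intro l
  induction l with
  | nil => intro A _ _ _; simp [zc]
  | cons a l ih =>
    intro A hn hd hr
    rw [List.nodup_cons] at hn
    rw [List.mem_cons, not_or] at hr
    have haA : a ∉ A := hd a (by simp)
    have h := ih (insert a A) hn.2 (by
      intro x hx hx'
      rcases Finset.mem_insert.mp hx' with e | e
      · exact hn.1 (e ▸ hx)
      · exact hd x (by simp [hx]) e) hr.2
    have har : a ≠ r := fun e => hr.1 e.symm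
    have a1 := h1 A a haA har
    simp only [zc]
    rw [List.toFinset_cons, Finset.union_insert, ← Finset.insert_union, List.length_cons]
    by_cases hc : f (insert a A) = f A
    · rw [if_pos ⟨har, hc⟩]
      push_cast
      omega
    · rw [if_neg (fun h => hc h.2)]
      push_cast
      omega

end Pool.Agent.H73.OV
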