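import Pool.Agent.H73.OV.Geo

/-!
# Opposite vertices
-/

set_option autoImplicit false

namespace Pool.Agent.H73.OV

open Finset
open Pool.Agent.W600.Opp (Sub GQ Paired lf lft tr mem_tr mem_GQ lf_sub lf_empty lf_univ
  extreme_of_tight sum_none_mem sum_none_notMem)

variable {S : Type*} [Fintype S] [DecidableEq S]

/-- an integral point of `Q ∩ -Q` with at most `M` zeros -/
theorem point {p b : Finset S → ℤ} (h : Paired p b) (h0 : (0 : S → ℝ) ∈ GQ p b) (M : ℤ)
    (hpot : HasPot (lf p b) none M) :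
    ∃ u : S → ℤ, (fun i => (u i : ℝ)) ∈ GQ p b ∧ -(fun i => (u i : ℝ)) ∈ GQ p b ∧
      (∀ i, u i = 0 ∨ u i = 1 ∨ u i = -1) ∧
      ((univ.filter (fun i : S => (u i : ℝ) = 0)).card : ℤ) ≤ M := by
  obtain ⟨σ, σ0, σu, s1, s2⟩ := hpot
  have hf : ∀ X Y, lf p b (X ∩ Y) + lf p b (X ∪ Y) ≤ lf p b X + lf p b Y := fun X Y =>
    lf_sub h X Y (Finset.subset_univ X) (Finset.subset_univ Y)
  have hnn : ∀ X : Finset (Option S), 0 ≤ lf p b X := by
    intro X
    have := (mem_GQ.mp h0) X
    have e : ∑ i ∈ X, lft (0 : S → ℝ) i = 0 := by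
      apply Finset.sum_eq_zero
      intro o _
      cases o with
      | none => simp [lft]
      | some i => simp [lft]
    rw [e] at this
    exact_mod_cast this
  obtain ⟨v, v0, v1, v2, v3⟩ := split (lf p b) σ none M hf (lf_empty h) (lf_univ h) hnn σ0 σu
    s1 s2
  obtain ⟨m1, m2⟩ := mem_of_lift v v0 v1
  refine ⟨fun i => v (some i), m1, m2, fun i => v2 (some i) (by simp), ?_⟩
  rw [← count_option]
  rw [Finset.card_filter] at v3
  push_cast at v3
  exact v3

theorem coord_le {p b : Finset S → ℤ} (h : Paired p b)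
    (hv : ∀ v ∈ (GQ p b).extremePoints ℝ, ∀ i, v i = 0 ∨ v i = 1 ∨ v i = -1)
    (y : S → ℝ) (hy : y ∈ GQ p b) (i : S) : -1 ≤ y i ∧ y i ≤ 1 := by
  have h1 := marginal h hv ∅ (some i) (by simp) (by simp)
  have h2 := marginal h hv (univ \ {some i}) (some i) (by simp) (by simp)
  rw [lf_empty h, Finset.insert_empty] at h1
  have e : insert (some i) (univ \ {some i}) = (univ : Finset (Option S)) := by
    ext x; simp
  rw [e, lf_univ h] at h2
  rw [mem_GQ] at hy
  have y1 := hy {some i}
  have y2 := hy (univ \ {some i})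
  rw [Finset.sum_singleton] at y1
  have y3 : ∑ o ∈ univ \ {some i}, lft y o = - lft y (some i) := by
    have := Finset.sum_sdiff (Finset.subset_univ ({some i} : Finset (Option S))) (f := lft y)
    rw [Pool.Agent.W600.Opp.lft_sum, Finset.sum_singleton] at this
    linarith
  rw [y3] at y2
  have e1 : lft y (some i) = y i := rfl
  rw [e1] at y1 y2
  have z1 : (lf p b {some i} : ℝ) ≤ 1 := by
    have : lf p b {some i} ≤ 1 := by omega
    exact_mod_cast this
  have z2 : (lf p b (univ \ {some i}) : ℝ) ≤ 1 := by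
    have : lf p b (univ \ {some i}) ≤ 1 := by omega
    exact_mod_cast this
  constructor <;> linarith

/-- a non-extreme integral point with exactly one zero can be moved at this zero -/
theorem shift {p b : Finset S → ℤ} (hb : ∀ y ∈ GQ p b, ∀ i, -1 ≤ y i ∧ y i ≤ 1)
    (u : S → ℤ) (hu : (fun i => (u i : ℝ)) ∈ GQ p b) (k : S)
    (h1 : ∀ i, i ≠ k → u i = 1 ∨ u i = -1)
    (hne : (fun i => (u i : ℝ)) ∉ (GQ p b).extremePoints ℝ) (ε : ℤ) (hε : ε = 1 ∨ ε = -1) :
    (fun i => ((Function.update u k (u k + ε)) i : ℝ)) ∈ GQ p b := by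
  rw [mem_extremePoints_iff_left] at hne
  push Not at hne
  obtain ⟨x1, hx1, x2, hx2, ⟨α, β, hα, hβ, hαβ, hxe⟩, hne1⟩ := hne hu
  have hcomb : ∀ i, (u i : ℝ) = α * x1 i + β * x2 i := by
    intro i
    have := congrFun hxe i
    simp only [Pi.add_apply, Pi.smul_apply, smul_eq_mul] at this
    exact this.symm
  have hsame : ∀ i, i ≠ k → x1 i = u i := by
    intro i hi
    have c := hcomb i
    have b1 := hb x1 hx1 i
    have b2 := hb x2 hx2 i
    rcases h1 i hi with e | e
    · rw [e] at c ⊢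
      push_cast at c ⊢
      apply le_antisymm b1.2
      by_contra hlt
      push Not at hlt
      have t1 : α * x1 i < α * 1 := mul_lt_mul_of_pos_left hlt hα
      have t2 : β * x2 i ≤ β * 1 := mul_le_mul_of_nonneg_left b2.2 hβ.le
      linarith
    · rw [e] at c ⊢
      push_cast at c ⊢
      apply le_antisymm _ b1.1
      by_contra hlt
      push Not at hlt
      have t1 : α * (-1) < α * x1 i := mul_lt_mul_of_pos_left hlt hα
      have t2 : β * (-1) ≤ β * x2 i := mul_le_mul_of_nonneg_left b2.1 hβ.le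
      linarith
  have hk : x1 k ≠ u k := by
    intro e
    apply hne1
    funext i
    by_cases hi : i = k
    · rw [hi]; exact e
    · exact hsame i hi
  have strict : ∀ A : Finset S, k ∈ A → p A < ∑ i ∈ A, u i ∧ ∑ i ∈ A, u i < b A := by
    intro A hA
    have s1 := hx1 A
    have s2 := hx2 A
    have s3 : (∑ i ∈ A, (u i : ℝ)) = α * ∑ i ∈ A, x1 i + β * ∑ i ∈ A, x2 i := by
      rw [Finset.mul_sum, Finset.mul_sum, ← Finset.sum_add_distrib]
      exact Finset.sum_congr rfl (fun i _ => hcomb i)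
    have s4 : ∑ i ∈ A, x1 i ≠ ∑ i ∈ A, (u i : ℝ) := by
      rw [← Finset.add_sum_erase A _ hA, ← Finset.add_sum_erase A (fun i => (u i : ℝ)) hA]
      have : ∑ i ∈ A.erase k, x1 i = ∑ i ∈ A.erase k, (u i : ℝ) :=
        Finset.sum_congr rfl (fun i hi => hsame i (Finset.ne_of_mem_erase hi))
      rw [this]
      intro e
      exact hk (by linarith)
    have s5 := hu A
    constructor
    · by_contra hle
      push Not at hle
      have hle' : (∑ i ∈ A, (u i : ℝ)) ≤ p A := by exact_mod_cast hle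
      apply s4
      apply le_antisymm _ (by linarith [s1.1])
      by_contra hlt
      push Not at hlt
      have t1 : α * (∑ i ∈ A, (u i : ℝ)) < α * ∑ i ∈ A, x1 i := mul_lt_mul_of_pos_left hlt hα
      have t2 : β * (∑ i ∈ A, (u i : ℝ)) ≤ β * ∑ i ∈ A, x2 i :=
        mul_le_mul_of_nonneg_left (by linarith [s2.1]) hβ.le
      have t3 : α * (∑ i ∈ A, (u i : ℝ)) + β * (∑ i ∈ A, (u i : ℝ)) = ∑ i ∈ A, (u i : ℝ) := by
        rw [← add_mul, hαβ, one_mul]
      linarith
    · by_contra hle
      push Not at hle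
      have hle' : (b A : ℝ) ≤ ∑ i ∈ A, (u i : ℝ) := by exact_mod_cast hle
      apply s4
      apply le_antisymm (by linarith [s1.2])
      by_contra hlt
      push Not at hlt
      have t1 : α * ∑ i ∈ A, x1 i < α * (∑ i ∈ A, (u i : ℝ)) := mul_lt_mul_of_pos_left hlt hα
      have t2 : β * ∑ i ∈ A, x2 i ≤ β * (∑ i ∈ A, (u i : ℝ)) :=
        mul_le_mul_of_nonneg_left (by linarith [s2.2]) hβ.le
      have t3 : α * (∑ i ∈ A, (u i : ℝ)) + β * (∑ i ∈ A, (u i : ℝ)) = ∑ i ∈ A, (u i : ℝ) := by
        rw [← add_mul, hαβ, one_mul]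
      linarith
  intro A
  have main : p A ≤ ∑ i ∈ A, (Function.update u k (u k + ε)) i ∧
      ∑ i ∈ A, (Function.update u k (u k + ε)) i ≤ b A := by
    by_cases hA : k ∈ A
    · have s := strict A hA
      rw [← Finset.add_sum_erase A _ hA, Function.update_self,
        sum_upd _ _ _ _ (Finset.notMem_erase k A)]
      rw [← Finset.add_sum_erase A _ hA] at s
      rcases hε with e | e <;> rw [e] <;> constructor <;> linarith [s.1, s.2]
    · rw [sum_upd _ _ _ _ hA]
      have s : (p A : ℝ) ≤ ∑ i ∈ A, (u i : ℝ) ∧ ∑ i ∈ A, (u i : ℝ) ≤ (b A : ℝ) := hu A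
      constructor
      · exact_mod_cast s.1
      · exact_mod_cast s.2
  show (p A : ℝ) ≤ ∑ i ∈ A, ((Function.update u k (u k + ε)) i : ℝ) ∧
    ∑ i ∈ A, ((Function.update u k (u k + ε)) i : ℝ) ≤ (b A : ℝ)
  constructor
  · exact_mod_cast main.1
  · exact_mod_cast main.2

theorem main_const {p b : Finset S → ℤ} (h : Paired p b) (h0 : (0 : S → ℝ) ∈ GQ p b)
    (hv : ∀ v ∈ (GQ p b).extremePoints ℝ, ∀ i, v i = 0 ∨ v i = 1 ∨ v i = -1)
    (m : ℕ) (hm : ∀ v ∈ (GQ p b).extremePoints ℝ,
      (univ.filter (fun i => v i = 0)).card = m) :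
    ∃ v ∈ (GQ p b).extremePoints ℝ, -v ∈ (GQ p b).extremePoints ℝ := by
  have hpot : HasPot (lf p b) none (m : ℤ) := by
    apply pot_const _ _ _ (marginal h hv)
    intro l hn hl
    rw [zc_eq l hn hl]
    exact_mod_cast hm _ (list_vertex h l hn hl)
  obtain ⟨u, u1, u2, u3, u4⟩ := point h h0 m hpot
  have hsq := sq_le (gq_compact p b) (gq_convex p b) ((Fintype.card S : ℝ) - m) (by
    intro v hvv
    rw [sum_sq v (hv v hvv), hm v hvv])
  have u5 : (((univ.filter (fun i : S => (u i : ℝ) = 0)).card : ℕ) : ℝ) ≤ m := by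
    exact_mod_cast u4
  have u6 : ∀ i, (u i : ℝ) = 0 ∨ (u i : ℝ) = 1 ∨ (u i : ℝ) = -1 := by
    intro i
    rcases u3 i with e | e | e <;> rw [e] <;> simp
  have u7 : (Fintype.card S : ℝ) - m ≤ ∑ i, (u i : ℝ) ^ 2 := by
    rw [sum_sq (fun i => (u i : ℝ)) u6]
    linarith
  refine ⟨fun i => (u i : ℝ), extreme_of_sq _ hsq _ u1 u7, extreme_of_sq _ hsq _ u2 ?_⟩
  have : ∑ i, (-(fun i => (u i : ℝ))) i ^ 2 = ∑ i, (u i : ℝ) ^ 2 :=
    Finset.sum_congr rfl (fun i _ => by simp)
  rw [this]
  exact u7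

theorem main_one {p b : Finset S → ℤ} (h : Paired p b) (h0 : (0 : S → ℝ) ∈ GQ p b)
    (hv : ∀ v ∈ (GQ p b).extremePoints ℝ, ∀ i, v i = 0 ∨ v i = 1 ∨ v i = -1)
    (hm : ∀ v ∈ (GQ p b).extremePoints ℝ, (univ.filter (fun i => v i = 0)).card ≤ 1) :
    ∃ v ∈ (GQ p b).extremePoints ℝ, -v ∈ GQ p b := by
  have hpot : HasPot (lf p b) none 1 := by
    apply pot_one _ _ (marginal h hv)
    intro l hn hl
    rw [zc_eq l hn hl]
    exact_mod_cast hm _ (list_vertex h l hn hl)
  obtain ⟨u, u1, u2, u3, u4⟩ := point h h0 1 hpot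
  have hb := coord_le h hv
  have hsq := sq_le (gq_compact p b) (gq_convex p b) (Fintype.card S : ℝ) (by
    intro v hvv
    rw [sum_sq v (hv v hvv)]
    have : (0 : ℝ) ≤ ((univ.filter (fun i => v i = 0)).card : ℝ) := Nat.cast_nonneg _
    linarith)
  have full : ∀ w : S → ℤ, (fun i => (w i : ℝ)) ∈ GQ p b → (∀ i, w i = 1 ∨ w i = -1) →
      (fun i => (w i : ℝ)) ∈ (GQ p b).extremePoints ℝ := by
    intro w hw hw1
    apply extreme_of_sq _ hsq _ hw
    have : ∀ i, ((w i : ℝ)) ^ 2 = 1 := by
      intro i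
      rcases hw1 i with e | e <;> rw [e] <;> norm_num
    rw [Finset.sum_congr rfl (fun i _ => this i)]
    simp
  by_cases hz : ∀ i, u i ≠ 0
  · exact ⟨_, full u u1 (fun i => (u3 i).resolve_left (hz i)), u2⟩
  · push Not at hz
    obtain ⟨k, hk⟩ := hz
    have hone : ∀ i, i ≠ k → u i = 1 ∨ u i = -1 := by
      intro i hi
      apply (u3 i).resolve_left
      intro e
      have hc : 1 < (univ.filter (fun i : S => (u i : ℝ) = 0)).card := by
        rw [Finset.one_lt_card]
        exact ⟨i, by simp [e], k, by simp [hk], hi⟩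
      have : ((univ.filter (fun i : S => (u i : ℝ) = 0)).card) ≤ 1 := by exact_mod_cast u4
      omega
    by_cases e1 : (fun i => (u i : ℝ)) ∈ (GQ p b).extremePoints ℝ
    · exact ⟨_, e1, u2⟩
    · have neg_eq : -(fun i => (u i : ℝ)) = (fun i => (((-u) i : ℤ) : ℝ)) := by
        funext i; simp
      by_cases e2 : -(fun i => (u i : ℝ)) ∈ (GQ p b).extremePoints ℝ
      · exact ⟨_, e2, by rw [neg_neg]; exact u1⟩
      · have s1 := shift hb u u1 k hone e1 1 (Or.inl rfl)
        have s2 := shift hb (-u) (by rw [← neg_eq]; exact u2) k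
          (by
            intro i hi
            rcases hone i hi with e | e
            · right; simp [e]
            · left; simp [e])
          (by rw [← neg_eq]; exact e2) (-1) (Or.inr rfl)
        refine ⟨_, full _ s1 ?_, ?_⟩
        · intro i
          by_cases hi : i = k
          · rw [hi, Function.update_self, hk]; simp
          · rw [Function.update_of_ne hi]; exact hone i hi
        · have : -(fun i => ((Function.update u k (u k + 1)) i : ℝ)) =
              (fun i => ((Function.update (-u) k ((-u) k + -1)) i : ℝ)) := by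
            funext i
            by_cases hi : i = k
            · rw [hi]
              simp only [Pi.neg_apply, Function.update_self]
              push_cast
              ring
            · simp only [Pi.neg_apply, Function.update_of_ne hi]
              push_cast
              ring
          rw [this]
          exact s2

end Pool.Agent.H73.OV
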