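import Pool.Agent.H73.OV.Lists

/-!
# The zero-counting potentials
-/

set_option autoImplicit false

namespace Pool.Agent.H73.OV

open Finset
open Pool.Agent.W600.Opp (Sub)

variable {E : Type*} [DecidableEq E] [Fintype E]

theorem cover (X : Finset E) (l : List E) (hn : l.Nodup) (h : l.toFinset = univ \ X) :
    (X.toList ++ l).Nodup ∧ (X.toList ++ l).toFinset = univ := by
  constructor
  · apply List.Nodup.append (Finset.nodup_toList X) hn
    intro x hx hx'
    rw [Finset.mem_toList] at hx
    have : x ∈ l.toFinset := List.mem_toFinset.mpr hx'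
    rw [h, Finset.mem_sdiff] at this
    exact this.2 hx
  · rw [List.toFinset_append, Finset.toList_toFinset, h]
    exact Finset.union_sdiff_of_subset (Finset.subset_univ X)

theorem cons_cover (X : Finset E) (i : E) (hi : i ∉ X) :
    (i :: (univ \ insert i X).toList).Nodup ∧
      (i :: (univ \ insert i X).toList).toFinset = univ \ X := by
  constructor
  · rw [List.nodup_cons]
    refine ⟨?_, Finset.nodup_toList _⟩
    rw [Finset.mem_toList, Finset.mem_sdiff, not_and_not_right]
    intro _
    exact Finset.mem_insert_self i X
  · rw [List.toFinset_cons, Finset.toList_toFinset]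
    ext x
    simp only [Finset.mem_insert, Finset.mem_sdiff, Finset.mem_univ, true_and, not_or]
    constructor
    · rintro (h | h)
      · rw [h]; exact hi
      · exact h.2
    · intro h
      by_cases hx : x = i
      · exact Or.inl hx
      · exact Or.inr ⟨hx, h⟩

/-- The conclusion needed in `split`. -/
def HasPot (f : Finset E → ℤ) (r : E) (M : ℤ) : Prop :=
  ∃ σ : Finset E → ℤ, σ ∅ = 0 ∧ σ univ = M ∧
    (∀ (X : Finset E) (i : E), i ∉ X → i ≠ r →
      (f (insert i X) = f X ∧ σ (insert i X) = σ X + 1) ∨
      ((f (insert i X) = f X + 1 ∨ f (insert i X) = f X - 1) ∧ σ (insert i X) = σ X)) ∧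
    (∀ X : Finset E, r ∉ X → σ X ≤ σ (insert r X))

theorem pot_const (f : Finset E → ℤ) (r : E) (M : ℤ)
    (h1 : ∀ (X : Finset E) (i : E), i ∉ X → i ≠ r →
      f (insert i X) = f X ∨ f (insert i X) = f X + 1 ∨ f (insert i X) = f X - 1)
    (hm : ∀ l : List E, l.Nodup → l.toFinset = univ → zc f r l ∅ = M) : HasPot f r M := by
  have key : ∀ (X : Finset E) (l : List E), l.Nodup → l.toFinset = univ \ X →
      zc f r X.toList ∅ + zc f r l X = M := by
    intro X l hn h
    obtain ⟨c1, c2⟩ := cover X l hn h
    have := hm _ c1 c2
    rwa [zc_append, Finset.toList_toFinset, Finset.empty_union] at this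
  have step : ∀ (X : Finset E) (i : E), i ∉ X →
      zc f r (univ \ X).toList X = (if i ≠ r ∧ f (insert i X) = f X then 1 else 0) +
        zc f r (univ \ insert i X).toList (insert i X) := by
    intro X i hi
    have k1 := key X (univ \ X).toList (Finset.nodup_toList _) (Finset.toList_toFinset _)
    obtain ⟨c1, c2⟩ := cons_cover X i hi
    have k2 := key X _ c1 c2
    simp only [zc] at k2
    linarith
  refine ⟨fun X => M - zc f r (univ \ X).toList X, ?_, ?_, ?_, ?_⟩
  · have := key ∅ (univ \ ∅).toList (Finset.nodup_toList _) (Finset.toList_toFinset _)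
    rw [Finset.toList_empty] at this
    simp only [zc] at this
    linarith
  · simp [zc]
  · intro X i hi hir
    have s := step X i hi
    have a1 := h1 X i hi hir
    show (f (insert i X) = f X ∧ M - zc f r (univ \ insert i X).toList (insert i X) =
        M - zc f r (univ \ X).toList X + 1) ∨
      ((f (insert i X) = f X + 1 ∨ f (insert i X) = f X - 1) ∧
        M - zc f r (univ \ insert i X).toList (insert i X) = M - zc f r (univ \ X).toList X)
    by_cases hc : f (insert i X) = f X
    · rw [if_pos ⟨hir, hc⟩] at s
      left
      exact ⟨hc, by linarith⟩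
    · rw [if_neg (fun h => hc h.2)] at s
      right
      refine ⟨a1.resolve_left hc, by linarith⟩
  · intro X hr
    have s := step X r hr
    rw [if_neg (fun h => h.1 rfl)] at s
    show M - zc f r (univ \ X).toList X ≤
      M - zc f r (univ \ insert r X).toList (insert r X)
    linarith

theorem pot_one (f : Finset E → ℤ) (r : E)
    (h1 : ∀ (X : Finset E) (i : E), i ∉ X → i ≠ r →
      f (insert i X) = f X ∨ f (insert i X) = f X + 1 ∨ f (insert i X) = f X - 1)
    (hm : ∀ l : List E, l.Nodup → l.toFinset = univ → zc f r l ∅ ≤ 1) : HasPot f r 1 := by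
  have key : ∀ (X : Finset E) (l : List E), l.Nodup → l.toFinset = univ \ X →
      zc f r X.toList ∅ + zc f r l X ≤ 1 := by
    intro X l hn h
    obtain ⟨c1, c2⟩ := cover X l hn h
    have := hm _ c1 c2
    rwa [zc_append, Finset.toList_toFinset, Finset.empty_union] at this
  -- lower part
  have lo : ∀ (X : Finset E) (i : E), i ∉ X → i ≠ r → r ∉ X →
      zc f r (insert i X).toList ∅ =
        zc f r X.toList ∅ + (if i ≠ r ∧ f (insert i X) = f X then 1 else 0) := by
    intro X i hi hir hr
    obtain ⟨c1, c2⟩ := cons_cover X i hi
    have k1 := key X _ c1 c2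
    simp only [zc] at k1
    have k2 := key (insert i X) (univ \ insert i X).toList (Finset.nodup_toList _)
      (Finset.toList_toFinset _)
    have n1 := zc_nonneg f r X.toList ∅
    have n2 := zc_nonneg f r (insert i X).toList ∅
    have n3 := zc_nonneg f r (univ \ insert i X).toList (insert i X)
    have p1 := zc_parity f r h1 X.toList ∅ (Finset.nodup_toList _) (by simp)
      (by rwa [Finset.mem_toList])
    have p2 := zc_parity f r h1 (insert i X).toList ∅ (Finset.nodup_toList _) (by simp)
      (by rw [Finset.mem_toList, Finset.mem_insert, not_or]; exact ⟨fun e => hir e.symm, hr⟩)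
    rw [Finset.toList_toFinset, Finset.empty_union, Finset.length_toList] at p1 p2
    rw [Finset.card_insert_of_notMem hi] at p2
    have a1 := h1 X i hi hir
    by_cases hc : f (insert i X) = f X
    · rw [if_pos ⟨hir, hc⟩] at k1 ⊢
      push_cast at p2
      omega
    · rw [if_neg (fun h => hc h.2)] at k1 ⊢
      push_cast at p2
      omega
  have hi : ∀ (X : Finset E) (i : E), i ∉ X → i ≠ r → r ∈ X →
      zc f r (univ \ X).toList X = (if i ≠ r ∧ f (insert i X) = f X then 1 else 0) +
        zc f r (univ \ insert i X).toList (insert i X) := by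
    intro X i hi hir hr
    obtain ⟨c1, c2⟩ := cons_cover X i hi
    have k1 := key X _ c1 c2
    have k2 := key X (univ \ X).toList (Finset.nodup_toList _) (Finset.toList_toFinset _)
    have n1 := zc_nonneg f r X.toList ∅
    have n2 := zc_nonneg f r (univ \ X).toList X
    have n3 := zc_nonneg f r (i :: (univ \ insert i X).toList) X
    have d1 : ∀ x ∈ i :: (univ \ insert i X).toList, x ∉ X := by
      intro x hx
      have : x ∈ (i :: (univ \ insert i X).toList).toFinset := List.mem_toFinset.mpr hx
      rw [c2] at this
      exact (Finset.mem_sdiff.mp this).2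
    have p1 := zc_parity f r h1 _ X c1 d1 (fun h => d1 r h hr)
    have p2 := zc_parity f r h1 (univ \ X).toList X (Finset.nodup_toList _)
      (by intro x hx; rw [Finset.mem_toList] at hx; exact (Finset.mem_sdiff.mp hx).2)
      (by rw [Finset.mem_toList, Finset.mem_sdiff]; exact fun h => h.2 hr)
    have e1 : (i :: (univ \ insert i X).toList).length = (univ \ X).toList.length := by
      rw [Finset.length_toList, ← c2, List.toFinset_card_of_nodup c1]
    rw [c2] at p1
    rw [Finset.toList_toFinset] at p2
    rw [e1] at p1
    simp only [zc] at k1 n3 p1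
    omega
  refine ⟨fun X => if r ∈ X then 1 - zc f r (univ \ X).toList X else zc f r X.toList ∅,
    ?_, ?_, ?_, ?_⟩
  · simp [zc]
  · simp [zc]
  · intro X i hiX hir
    have a1 := h1 X i hiX hir
    by_cases hr : r ∈ X
    · have hr' : r ∈ insert i X := Finset.mem_insert_of_mem hr
      simp only [if_pos hr, if_pos hr']
      have s := hi X i hiX hir hr
      by_cases hc : f (insert i X) = f X
      · rw [if_pos ⟨hir, hc⟩] at s
        left
        exact ⟨hc, by linarith⟩
      · rw [if_neg (fun h => hc h.2)] at s
        right
        refine ⟨a1.resolve_left hc, by linarith⟩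
    · have hr' : r ∉ insert i X := by
        rw [Finset.mem_insert, not_or]; exact ⟨fun e => hir e.symm, hr⟩
      simp only [if_neg hr, if_neg hr']
      have s := lo X i hiX hir hr
      by_cases hc : f (insert i X) = f X
      · rw [if_pos ⟨hir, hc⟩] at s
        left
        exact ⟨hc, by linarith⟩
      · rw [if_neg (fun h => hc h.2)] at s
        right
        refine ⟨a1.resolve_left hc, by linarith⟩
  · intro X hr
    have hr' : r ∈ insert r X := Finset.mem_insert_self r X
    simp only [if_neg hr, if_pos hr']
    obtain ⟨c1, c2⟩ := cons_cover X r hr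
    have k1 := key X _ c1 c2
    simp only [zc] at k1
    rw [if_neg (fun h => h.1 rfl)] at k1
    linarith

end Pool.Agent.H73.OV
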