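import Pool.Graph.R_seed8.W600.Opp.Final

/-!
# The discrete sandwich theorem with a parity condition
-/

set_option autoImplicit false

namespace Pool.Agent.H73.OV

open Finset
open Pool.Agent.W600.Opp (Sub)

variable {E : Type*} [DecidableEq E]

/-- Discrete sandwich theorem with a parity condition. -/
theorem sandwich (W : Finset E) : ∀ (p b : Finset E → ℤ) (w : E → ℤ), p ∅ = 0 → b ∅ = 0 →
    (∀ X Y, X ⊆ W → Y ⊆ W → p X + p Y ≤ p (X ∩ Y) + p (X ∪ Y)) → Sub W b →
    (∀ X, X ⊆ W → p X ≤ b X) → (∀ X, X ⊆ W → (2 : ℤ) ∣ p X - ∑ i ∈ X, w i) →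
    (∀ X, X ⊆ W → (2 : ℤ) ∣ b X - ∑ i ∈ X, w i) →
    ∃ m : E → ℤ, (∀ i ∈ W, (2 : ℤ) ∣ m i - w i) ∧
      ∀ X, X ⊆ W → p X ≤ ∑ i ∈ X, m i ∧ ∑ i ∈ X, m i ≤ b X := by
  induction W using Finset.induction_on with
  | empty =>
    intro p b w hp hb _ _ _ _ _
    refine ⟨w, by simp, ?_⟩
    intro X hX
    rw [Finset.subset_empty.mp hX]
    simp [hp, hb]
  | insert a W ha ih =>
    intro p b w hp hb hpS hbS hle hpp hbp
    have sub1 : ∀ X, X ⊆ W → X ⊆ insert a W := fun X hX => hX.trans (Finset.subset_insert a W)
    have sub2 : ∀ X, X ⊆ W → insert a X ⊆ insert a W := fun X hX =>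
      Finset.insert_subset_insert a hX
    have notm : ∀ X, X ⊆ W → a ∉ X := fun X hX h => ha (hX h)
    have mixp : ∀ X Y, X ⊆ W → Y ⊆ W →
        p X + p (insert a Y) ≤ p (X ∩ Y) + p (insert a (X ∪ Y)) := by
      intro X Y hX hY
      have h := hpS X (insert a Y) (sub1 X hX) (sub2 Y hY)
      rwa [Finset.inter_insert_of_notMem (notm X hX), Finset.union_insert] at h
    have mixb : ∀ X Y, X ⊆ W → Y ⊆ W →
        b (X ∩ Y) + b (insert a (X ∪ Y)) ≤ b X + b (insert a Y) := by
      intro X Y hX hY
      have h := hbS X (insert a Y) (sub1 X hX) (sub2 Y hY)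
      rwa [Finset.inter_insert_of_notMem (notm X hX), Finset.union_insert] at h
    have insp : ∀ X Y, X ⊆ W → Y ⊆ W →
        p (insert a X) + p (insert a Y) ≤ p (insert a (X ∩ Y)) + p (insert a (X ∪ Y)) := by
      intro X Y hX hY
      have h := hpS (insert a X) (insert a Y) (sub2 X hX) (sub2 Y hY)
      rwa [← Finset.insert_inter_distrib, ← Finset.insert_union_distrib] at h
    have insb : ∀ X Y, X ⊆ W → Y ⊆ W →
        b (insert a (X ∩ Y)) + b (insert a (X ∪ Y)) ≤ b (insert a X) + b (insert a Y) := by
      intro X Y hX hY
      have h := hbS (insert a X) (insert a Y) (sub2 X hX) (sub2 Y hY)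
      rwa [← Finset.insert_inter_distrib, ← Finset.insert_union_distrib] at h
    obtain ⟨X0, hX0, hmax⟩ := Finset.exists_max_image W.powerset
      (fun X => p (insert a X) - b X) ⟨∅, Finset.empty_mem_powerset W⟩
    rw [Finset.mem_powerset] at hX0
    obtain ⟨t, ht⟩ : ∃ t, t = p (insert a X0) - b X0 := ⟨_, rfl⟩
    have ht1 : ∀ X, X ⊆ W → p (insert a X) - b X ≤ t := by
      intro X hX
      rw [ht]
      exact hmax X (Finset.mem_powerset.mpr hX)
    have ht2 : ∀ X, X ⊆ W → t ≤ b (insert a X) - p X := by
      intro X hX
      have h1 := mixp X X0 hX hX0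
      have h2 := mixb X0 X hX0 hX
      rw [Finset.inter_comm, Finset.union_comm] at h2
      have h3 := hle (X ∩ X0) (sub1 _ (Finset.inter_subset_left.trans hX))
      have h4 := hle (insert a (X ∪ X0)) (sub2 _ (Finset.union_subset hX hX0))
      rw [ht]
      linarith
    have htp : (2 : ℤ) ∣ t - w a := by
      have h1 := hpp (insert a X0) (sub2 _ hX0)
      have h2 := hbp X0 (sub1 _ hX0)
      rw [Finset.sum_insert (notm X0 hX0)] at h1
      omega
    obtain ⟨m, hm1, hm2⟩ := ih (fun X => max (p X) (p (insert a X) - t))
      (fun X => min (b X) (b (insert a X) - t)) w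
      (by
        have h := ht1 ∅ (Finset.empty_subset W)
        show max (p ∅) (p (insert a ∅) - t) = 0
        rw [hp]
        rw [hb] at h
        exact max_eq_left (by linarith))
      (by
        have h := ht2 ∅ (Finset.empty_subset W)
        show min (b ∅) (b (insert a ∅) - t) = 0
        rw [hb]
        rw [hp] at h
        exact min_eq_left (by linarith))
      (by
        intro X Y hX hY
        show max (p X) (p (insert a X) - t) + max (p Y) (p (insert a Y) - t) ≤
          max (p (X ∩ Y)) (p (insert a (X ∩ Y)) - t) + max (p (X ∪ Y)) (p (insert a (X ∪ Y)) - t)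
        have s1 := hpS X Y (sub1 X hX) (sub1 Y hY)
        have s2 := mixp X Y hX hY
        have s3 := mixp Y X hY hX
        rw [Finset.inter_comm Y X, Finset.union_comm Y X] at s3
        have s4 := insp X Y hX hY
        have l1 := le_max_left (p (X ∩ Y)) (p (insert a (X ∩ Y)) - t)
        have l2 := le_max_right (p (X ∩ Y)) (p (insert a (X ∩ Y)) - t)
        have l3 := le_max_left (p (X ∪ Y)) (p (insert a (X ∪ Y)) - t)
        have l4 := le_max_right (p (X ∪ Y)) (p (insert a (X ∪ Y)) - t)
        rcases max_choice (p X) (p (insert a X) - t) with h | h <;>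
        rcases max_choice (p Y) (p (insert a Y) - t) with h' | h' <;>
        rw [h, h'] <;> linarith)
      (by
        intro X Y hX hY
        show min (b (X ∩ Y)) (b (insert a (X ∩ Y)) - t) + min (b (X ∪ Y)) (b (insert a (X ∪ Y)) - t)
          ≤ min (b X) (b (insert a X) - t) + min (b Y) (b (insert a Y) - t)
        have s1 := hbS X Y (sub1 X hX) (sub1 Y hY)
        have s2 := mixb X Y hX hY
        have s3 := mixb Y X hY hX
        rw [Finset.inter_comm Y X, Finset.union_comm Y X] at s3
        have s4 := insb X Y hX hY
        have l1 := min_le_left (b (X ∩ Y)) (b (insert a (X ∩ Y)) - t)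
        have l2 := min_le_right (b (X ∩ Y)) (b (insert a (X ∩ Y)) - t)
        have l3 := min_le_left (b (X ∪ Y)) (b (insert a (X ∪ Y)) - t)
        have l4 := min_le_right (b (X ∪ Y)) (b (insert a (X ∪ Y)) - t)
        rcases min_choice (b X) (b (insert a X) - t) with h | h <;>
        rcases min_choice (b Y) (b (insert a Y) - t) with h' | h' <;>
        rw [h, h'] <;> linarith)
      (by
        intro X hX
        have h1 := ht1 X hX
        have h2 := ht2 X hX
        have h3 := hle X (sub1 X hX)
        have h4 := hle (insert a X) (sub2 X hX)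
        exact max_le (le_min h3 (by linarith)) (le_min (by linarith) (by linarith)))
      (by
        intro X hX
        show (2 : ℤ) ∣ max (p X) (p (insert a X) - t) - ∑ i ∈ X, w i
        rcases max_choice (p X) (p (insert a X) - t) with h | h <;> rw [h]
        · exact hpp X (sub1 X hX)
        · have h1 := hpp (insert a X) (sub2 X hX)
          rw [Finset.sum_insert (notm X hX)] at h1
          omega)
      (by
        intro X hX
        show (2 : ℤ) ∣ min (b X) (b (insert a X) - t) - ∑ i ∈ X, w i
        rcases min_choice (b X) (b (insert a X) - t) with h | h <;> rw [h]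
        · exact hbp X (sub1 X hX)
        · have h1 := hbp (insert a X) (sub2 X hX)
          rw [Finset.sum_insert (notm X hX)] at h1
          omega)
    have off : ∀ X : Finset E, a ∉ X → ∑ i ∈ X, (Function.update m a t) i = ∑ i ∈ X, m i := by
      intro X hX
      apply Finset.sum_congr rfl
      intro i hi
      rw [Function.update_of_ne (show i ≠ a from fun e => hX (e ▸ hi))]
    refine ⟨Function.update m a t, ?_, ?_⟩
    · intro i hi
      by_cases hia : i = a
      · subst hia
        rw [Function.update_self]
        exact htp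
      · rw [Function.update_of_ne hia]
        exact hm1 i ((Finset.mem_insert.mp hi).resolve_left hia)
    · intro X hX
      by_cases haX : a ∈ X
      · have e0 : insert a (X.erase a) = X := Finset.insert_erase haX
        have hXe : X.erase a ⊆ W := by
          intro j hj
          rw [Finset.mem_erase] at hj
          exact (Finset.mem_insert.mp (hX hj.2)).resolve_left hj.1
        have h := hm2 _ hXe
        rw [← e0, Finset.sum_insert (Finset.notMem_erase a X),
          off _ (Finset.notMem_erase a X), Function.update_self]
        have l1 := (le_max_right (p (X.erase a)) (p (insert a (X.erase a)) - t)).trans h.1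
        have l2 := h.2.trans (min_le_right (b (X.erase a)) (b (insert a (X.erase a)) - t))
        constructor <;> linarith
      · have hXW : X ⊆ W := by
          intro j hj
          exact (Finset.mem_insert.mp (hX hj)).resolve_left (fun e => haX (e ▸ hj))
        have h := hm2 X hXW
        rw [off X haX]
        exact ⟨(le_max_left _ _).trans h.1, h.2.trans (min_le_left _ _)⟩

/-- local submodularity implies submodularity -/
theorem sub_of_local (g : Finset E → ℤ)
    (h : ∀ (X : Finset E) (i j : E), i ∉ X → j ∉ X → i ≠ j →
      g (insert i (insert j X)) + g X ≤ g (insert i X) + g (insert j X)) (X Y : Finset E) :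
    g (X ∩ Y) + g (X ∪ Y) ≤ g X + g Y := by
  have step1 : ∀ (Z A : Finset E) (i : E), Disjoint Z A → i ∉ A → i ∉ Z →
      g (insert i (A ∪ Z)) + g A ≤ g (insert i A) + g (A ∪ Z) := by
    intro Z
    induction Z using Finset.induction_on with
    | empty =>
      intro A i _ _ _
      rw [Finset.union_empty]
    | insert c Z hc ih =>
      intro A i hd hi hiZ
      rw [Finset.disjoint_insert_left] at hd
      have hi2 : i ∉ Z := fun e => hiZ (Finset.mem_insert_of_mem e)
      have hic : i ≠ c := fun e => hiZ (e ▸ Finset.mem_insert_self c Z)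
      have h1 := ih A i hd.2 hi hi2
      have h2 := h (A ∪ Z) i c (fun e => (Finset.mem_union.mp e).elim hi hi2)
        (fun e => (Finset.mem_union.mp e).elim hd.1 hc) hic
      rw [Finset.union_insert]
      linarith
  have step2 : ∀ (Z A B : Finset E), A ⊆ B → Disjoint Z B →
      g (B ∪ Z) + g A ≤ g (A ∪ Z) + g B := by
    intro Z
    induction Z using Finset.induction_on with
    | empty =>
      intro A B _ _
      rw [Finset.union_empty, Finset.union_empty]
      linarith
    | insert c Z hc ih =>
      intro A B hAB hd
      rw [Finset.disjoint_insert_left] at hd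
      have h1 := ih A B hAB hd.2
      have e1 : (A ∪ Z) ∪ (B \ A) = B ∪ Z := by
        ext x
        simp only [Finset.mem_union, Finset.mem_sdiff]
        constructor
        · rintro ((h | h) | h)
          · exact Or.inl (hAB h)
          · exact Or.inr h
          · exact Or.inl h.1
        · rintro (h | h)
          · by_cases hx : x ∈ A
            · exact Or.inl (Or.inl hx)
            · exact Or.inr ⟨h, hx⟩
          · exact Or.inl (Or.inr h)
      have h2 := step1 (B \ A) (A ∪ Z) c
        (by
          rw [Finset.disjoint_left]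
          intro x hx hx'
          rw [Finset.mem_sdiff] at hx
          rcases Finset.mem_union.mp hx' with h' | h'
          · exact hx.2 h'
          · exact (Finset.disjoint_left.mp hd.2 h') hx.1)
        (fun e => (Finset.mem_union.mp e).elim (fun e => hd.1 (hAB e)) hc)
        (fun e => hd.1 (Finset.mem_sdiff.mp e).1)
      rw [e1] at h2
      rw [Finset.union_insert, Finset.union_insert]
      linarith
  have h3 := step2 (X \ Y) (X ∩ Y) Y Finset.inter_subset_right Finset.sdiff_disjoint
  rw [Finset.union_sdiff_self_eq_union, Finset.union_comm Y X] at h3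
  have e2 : X ∩ Y ∪ X \ Y = X := by
    ext x
    simp only [Finset.mem_union, Finset.mem_inter, Finset.mem_sdiff]
    tauto
  rw [e2] at h3
  linarith

end Pool.Agent.H73.OV
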