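import Pool.Agent.H73.OV.Sandwich

/-!
# The splitting argument
-/

set_option autoImplicit false

namespace Pool.Agent.H73.OV

open Finset
open Pool.Agent.W600.Opp (Sub)

variable {E : Type*} [DecidableEq E] [Fintype E]

/-- If the zero-counting potential `σ` exists, then `B(f) ∩ -B(f)` contains an integral point
with few zeros. -/
theorem split (f σ : Finset E → ℤ) (r : E) (M : ℤ)
    (hf : ∀ X Y, f (X ∩ Y) + f (X ∪ Y) ≤ f X + f Y) (f0 : f ∅ = 0) (fu : f univ = 0)
    (fn : ∀ X, 0 ≤ f X) (σ0 : σ ∅ = 0) (σu : σ univ = M)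
    (h1 : ∀ (X : Finset E) (i : E), i ∉ X → i ≠ r →
      (f (insert i X) = f X ∧ σ (insert i X) = σ X + 1) ∨
      ((f (insert i X) = f X + 1 ∨ f (insert i X) = f X - 1) ∧ σ (insert i X) = σ X))
    (h2 : ∀ X : Finset E, r ∉ X → σ X ≤ σ (insert r X)) :
    ∃ v : E → ℤ, ∑ i, v i = 0 ∧ (∀ X, ∑ i ∈ X, v i ≤ f X ∧ - ∑ i ∈ X, v i ≤ f X) ∧
      (∀ i, i ≠ r → v i = 0 ∨ v i = 1 ∨ v i = -1) ∧
      ((univ.filter (fun i => i ≠ r ∧ v i = 0)).card : ℤ) ≤ M := by
  -- monotonicity of `σ`
  have hmono : ∀ (Z X : Finset E), σ X ≤ σ (X ∪ Z) := by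
    intro Z
    induction Z using Finset.induction_on with
    | empty => intro X; rw [Finset.union_empty]
    | insert c Z hc ih =>
      intro X
      rw [Finset.union_insert]
      by_cases hcX : c ∈ X ∪ Z
      · rw [Finset.insert_eq_of_mem hcX]; exact ih X
      · have := ih X
        by_cases hcr : c = r
        · subst hcr
          have := h2 _ hcX
          linarith
        · rcases h1 _ c hcX hcr with h | h
          · linarith [h.2]
          · linarith [h.2]
  have hmono' : ∀ X Y : Finset E, X ⊆ Y → σ X ≤ σ Y := by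
    intro X Y hXY
    have := hmono Y X
    rwa [Finset.union_eq_right.mpr hXY] at this
  -- local submodularity
  have loc0 : ∀ (X : Finset E) (i j : E), i ∉ X → j ∉ X → i ≠ j → i ≠ r →
      ((f (insert i (insert j X)) + σ (insert i (insert j X))) + (f X + σ X) ≤
        (f (insert i X) + σ (insert i X)) + (f (insert j X) + σ (insert j X))) ∧
      ((f (insert i (insert j X)) - σ (insert i (insert j X))) + (f X - σ X) ≤
        (f (insert i X) - σ (insert i X)) + (f (insert j X) - σ (insert j X))) := by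
    intro X i j hi hj hij hir
    have hi' : i ∉ insert j X := by
      rw [Finset.mem_insert, not_or]; exact ⟨hij, hi⟩
    have a1 := h1 X i hi hir
    have a2 := h1 (insert j X) i hi' hir
    have a3 := hf (insert i X) (insert j X)
    have e1 : insert i X ∩ insert j X = X := by
      ext x
      simp only [Finset.mem_inter, Finset.mem_insert]
      constructor
      · rintro ⟨h | h, h' | h'⟩
        · exact absurd (h.symm.trans h') hij
        · exact h'
        · exact h
        · exact h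
      · intro h; exact ⟨Or.inr h, Or.inr h⟩
    have e2 : insert i X ∪ insert j X = insert i (insert j X) := by
      ext x
      simp only [Finset.mem_union, Finset.mem_insert]
      tauto
    rw [e1, e2] at a3
    omega
  have loc : ∀ (X : Finset E) (i j : E), i ∉ X → j ∉ X → i ≠ j →
      ((f (insert i (insert j X)) + σ (insert i (insert j X))) + (f X + σ X) ≤
        (f (insert i X) + σ (insert i X)) + (f (insert j X) + σ (insert j X))) ∧
      ((f (insert i (insert j X)) - σ (insert i (insert j X))) + (f X - σ X) ≤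
        (f (insert i X) - σ (insert i X)) + (f (insert j X) - σ (insert j X))) := by
    intro X i j hi hj hij
    by_cases hir : i = r
    · have hjr : j ≠ r := fun e => hij (hir.trans e.symm)
      have := loc0 X j i hj hi hij.symm hjr
      rw [Finset.insert_comm i j]
      constructor
      · linarith [this.1]
      · linarith [this.2]
    · exact loc0 X i j hi hj hij hir
  have subp := sub_of_local (fun X => f X + σ X) (fun X i j hi hj hij => (loc X i j hi hj hij).1)
  have subm := sub_of_local (fun X => f X - σ X) (fun X i j hi hj hij => (loc X i j hi hj hij).2)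
  -- parity
  obtain ⟨w, hw⟩ : ∃ w : E → ℤ, w = fun i => if i = r then f {r} + σ {r} else 1 := ⟨_, rfl⟩
  have hwr : w r = f {r} + σ {r} := by rw [hw]; simp
  have hwi : ∀ i, i ≠ r → w i = 1 := fun i hi => by rw [hw]; simp [hi]
  have par0 : ∀ A : Finset E, r ∉ A → (2 : ℤ) ∣ f A + σ A - ∑ i ∈ A, w i ∧
      (2 : ℤ) ∣ f (insert r A) + σ (insert r A) - ∑ i ∈ insert r A, w i := by
    intro A
    induction A using Finset.induction_on with
    | empty =>
      intro _
      rw [f0, σ0, Finset.sum_empty, Finset.insert_empty, Finset.sum_singleton, hwr]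
      simp
    | insert c A hc ih =>
      intro hr
      rw [Finset.mem_insert, not_or] at hr
      have hcr : c ≠ r := fun e => hr.1 e.symm
      have hc' : c ∉ insert r A := by
        rw [Finset.mem_insert, not_or]; exact ⟨hcr, hc⟩
      obtain ⟨i1, i2⟩ := ih hr.2
      have a1 := h1 A c hc hcr
      have a2 := h1 (insert r A) c hc' hcr
      rw [Finset.insert_comm r c, Finset.sum_insert hc, Finset.sum_insert hc', hwi c hcr]
      omega
  have par : ∀ X : Finset E, (2 : ℤ) ∣ f X + σ X - ∑ i ∈ X, w i := by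
    intro X
    by_cases hr : r ∈ X
    · have := (par0 (X.erase r) (Finset.notMem_erase r X)).2
      rwa [Finset.insert_erase hr] at this
    · exact (par0 X hr).1
  -- first sandwich
  obtain ⟨ξ, ξ1, ξ2⟩ := sandwich univ (fun X => -(f X - σ X)) (fun X => f X + σ X) w
    (by simp [f0, σ0]) (by simp [f0, σ0])
    (fun X Y _ _ => by
      have := subm X Y
      show -(f X - σ X) + -(f Y - σ Y) ≤ -(f (X ∩ Y) - σ (X ∩ Y)) + -(f (X ∪ Y) - σ (X ∪ Y))
      linarith)
    (fun X Y _ _ => subp X Y)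
    (fun X _ => by
      have := fn X
      show -(f X - σ X) ≤ f X + σ X
      linarith)
    (fun X _ => by
      have := par X
      show (2 : ℤ) ∣ -(f X - σ X) - ∑ i ∈ X, w i
      omega)
    (fun X _ => par X)
  have ξ3 : ∀ X : Finset E, -(f X - σ X) ≤ ∑ i ∈ X, ξ i ∧ ∑ i ∈ X, ξ i ≤ f X + σ X :=
    fun X => ξ2 X (Finset.subset_univ X)
  have ξ4 : ∀ X : Finset E, (2 : ℤ) ∣ ∑ i ∈ X, ξ i - ∑ i ∈ X, w i := by
    intro X
    rw [← Finset.sum_sub_distrib]
    exact Finset.dvd_sum (fun i _ => ξ1 i (Finset.mem_univ i))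
  -- the second lower function
  obtain ⟨q, hq⟩ : ∃ q : Finset E → ℤ, q = fun X => X.powerset.sup' ⟨∅, Finset.empty_mem_powerset X⟩
    (fun Y => ∑ i ∈ Y, ξ i - (f Y - σ Y)) := ⟨_, rfl⟩
  have q1 : ∀ X Y : Finset E, Y ⊆ X → ∑ i ∈ Y, ξ i - (f Y - σ Y) ≤ q X := by
    intro X Y hYX
    rw [hq]
    exact Finset.le_sup' (fun Y => ∑ i ∈ Y, ξ i - (f Y - σ Y)) (Finset.mem_powerset.mpr hYX)
  have q2 : ∀ X : Finset E, ∃ Y, Y ⊆ X ∧ q X = ∑ i ∈ Y, ξ i - (f Y - σ Y) := by
    intro X
    obtain ⟨Y, hY, e⟩ := Finset.exists_mem_eq_sup' (s := X.powerset)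
      ⟨∅, Finset.empty_mem_powerset X⟩ (fun Y => ∑ i ∈ Y, ξ i - (f Y - σ Y))
    refine ⟨Y, Finset.mem_powerset.mp hY, ?_⟩
    rw [hq]
    exact e
  obtain ⟨η, η1, η2⟩ := sandwich univ q (fun X => ∑ i ∈ X, ξ i + (f X + σ X)) (fun _ => 0)
    (by
      obtain ⟨Y, hY, e⟩ := q2 ∅
      rw [e, Finset.subset_empty.mp hY, f0, σ0]; simp)
    (by simp [f0, σ0])
    (fun X Y _ _ => by
      obtain ⟨X', hX', eX⟩ := q2 X
      obtain ⟨Y', hY', eY⟩ := q2 Y
      have a1 := q1 (X ∩ Y) (X' ∩ Y') (Finset.inter_subset_inter hX' hY')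
      have a2 := q1 (X ∪ Y) (X' ∪ Y') (Finset.union_subset_union hX' hY')
      have a3 := subm X' Y'
      have a4 : ∑ i ∈ X' ∪ Y', ξ i + ∑ i ∈ X' ∩ Y', ξ i = ∑ i ∈ X', ξ i + ∑ i ∈ Y', ξ i :=
        Finset.sum_union_inter
      rw [eX, eY]
      linarith)
    (fun X Y _ _ => by
      have a3 := subp X Y
      have a4 : ∑ i ∈ X ∪ Y, ξ i + ∑ i ∈ X ∩ Y, ξ i = ∑ i ∈ X, ξ i + ∑ i ∈ Y, ξ i :=
        Finset.sum_union_inter
      show ∑ i ∈ X ∩ Y, ξ i + (f (X ∩ Y) + σ (X ∩ Y)) + (∑ i ∈ X ∪ Y, ξ i + (f (X ∪ Y) + σ (X ∪ Y)))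
        ≤ ∑ i ∈ X, ξ i + (f X + σ X) + (∑ i ∈ Y, ξ i + (f Y + σ Y))
      linarith)
    (fun X _ => by
      obtain ⟨Y, hY, e⟩ := q2 X
      have a1 := hmono' Y X hY
      have a2 := (ξ3 X).1
      have a3 := (ξ3 Y).2
      show q X ≤ ∑ i ∈ X, ξ i + (f X + σ X)
      rw [e]
      linarith)
    (fun X _ => by
      obtain ⟨Y, hY, e⟩ := q2 X
      have a1 := par Y
      have a2 := ξ4 Y
      rw [e, Finset.sum_const_zero]
      omega)
    (fun X _ => by
      have a1 := par X
      have a2 := ξ4 X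
      show (2 : ℤ) ∣ ∑ i ∈ X, ξ i + (f X + σ X) - ∑ i ∈ X, (0 : ℤ)
      rw [Finset.sum_const_zero]
      omega)
  have η3 : ∀ X : Finset E, q X ≤ ∑ i ∈ X, η i ∧ ∑ i ∈ X, η i ≤ ∑ i ∈ X, ξ i + (f X + σ X) :=
    fun X => η2 X (Finset.subset_univ X)
  have hθ : ∀ i, ∃ t, η i = 2 * t := by
    intro i
    have := η1 i (Finset.mem_univ i)
    rw [sub_zero] at this
    exact this
  choose θ hθ using hθ
  have hsum : ∀ X : Finset E, ∑ i ∈ X, η i = 2 * ∑ i ∈ X, θ i := by
    intro X
    rw [Finset.mul_sum]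
    exact Finset.sum_congr rfl (fun i _ => hθ i)
  have hv : ∀ X : Finset E, ∑ i ∈ X, (ξ i - θ i) ≤ f X ∧ - ∑ i ∈ X, (ξ i - θ i) ≤ f X := by
    intro X
    have a1 := q1 X X (Finset.Subset.refl X)
    have a2 := η3 X
    have a3 := ξ3 X
    have a4 := hsum X
    rw [Finset.sum_sub_distrib]
    constructor <;> linarith
  have coord : ∀ i, i ≠ r → (ξ i = 1 ∧ θ i = 1) ∨ (ξ i = 1 ∧ θ i = 0) ∨ (ξ i = -1 ∧ θ i = 0) := by
    intro i hi
    have a0 := h1 ∅ i (Finset.notMem_empty i) hi
    rw [Finset.insert_empty, f0, σ0] at a0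
    have a1 := ξ3 {i}
    have a2 := η3 {i}
    have a3 := ξ1 i (Finset.mem_univ i)
    have a4 := q1 {i} ∅ (Finset.empty_subset _)
    have a5 := q1 {i} {i} (Finset.Subset.refl _)
    rw [hwi i hi] at a3
    rw [Finset.sum_singleton] at a1 a2 a5
    rw [Finset.sum_singleton] at a2
    rw [Finset.sum_empty, f0, σ0] at a4
    rw [hθ i] at a2
    omega
  refine ⟨fun i => ξ i - θ i, ?_, hv, ?_, ?_⟩
  · have := hv univ
    rw [fu] at this
    linarith [this.1, this.2]
  · intro i hi
    show ξ i - θ i = 0 ∨ ξ i - θ i = 1 ∨ ξ i - θ i = -1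
    rcases coord i hi with h | h | h <;> rw [h.1, h.2] <;> simp
  · have b1 : ((univ.filter (fun i => i ≠ r ∧ ξ i - θ i = 0)).card : ℤ) ≤
        ∑ i ∈ univ.erase r, θ i := by
      have c1 : ((univ.filter (fun i => i ≠ r ∧ ξ i - θ i = 0)).card : ℤ) =
          ∑ i ∈ univ.filter (fun i => i ≠ r ∧ ξ i - θ i = 0), (1 : ℤ) := by simp
      rw [c1]
      have c2 : ∑ i ∈ univ.filter (fun i => i ≠ r ∧ ξ i - θ i = 0), (1 : ℤ) =
          ∑ i ∈ univ.filter (fun i => i ≠ r ∧ ξ i - θ i = 0), θ i := by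
        apply Finset.sum_congr rfl
        intro i hi
        rw [Finset.mem_filter] at hi
        rcases coord i hi.2.1 with h | h | h
        · exact h.2.symm
        · have := hi.2.2; rw [h.1, h.2] at this; norm_num at this
        · have := hi.2.2; rw [h.1, h.2] at this; norm_num at this
      rw [c2]
      apply Finset.sum_le_sum_of_subset_of_nonneg
      · intro i hi
        rw [Finset.mem_filter] at hi
        exact Finset.mem_erase.mpr ⟨hi.2.1, Finset.mem_univ i⟩
      · intro i hi _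
        rw [Finset.mem_erase] at hi
        rcases coord i hi.1 with h | h | h <;> rw [h.2] <;> norm_num
    have b2 : θ r + ∑ i ∈ univ.erase r, θ i = ∑ i, θ i :=
      Finset.add_sum_erase univ θ (Finset.mem_univ r)
    have b3 := η3 univ
    have b4 := ξ3 univ
    have b5 := hsum univ
    have b6 := η3 {r}
    have b7 := q1 {r} ∅ (Finset.empty_subset _)
    rw [Finset.sum_singleton, hθ r] at b6
    rw [Finset.sum_empty, f0, σ0] at b7
    rw [fu, σu] at b3 b4
    linarith [b6.1, b3.2, b4.2]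

end Pool.Agent.H73.OV
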